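import Mathlib
import Pool.Agent.H28.Shear2

open Filter Topology Metric Complex
open scoped InnerProductSpace ComplexConjugate
open Pool.Agent.H28.Shear

namespace Pool.Agent.Results.MP_eccde5_an.Sharp

/-- `ℂ²` with the Euclidean norm. -/
abbrev E : Type := EuclideanSpace ℂ (Fin 2)

/-- The family `𝓝_A`, `A = diag(λ, 1)`. -/
def NA (lam : ℝ) : Set (E → E) :=
  {h | AnalyticOnNhd ℂ h (ball 0 1) ∧ h 0 = 0 ∧
    (∀ v : E, fderiv ℂ h 0 v 0 = lam * v 0 ∧ fderiv ℂ h 0 v 1 = v 1) ∧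
    ∀ z ∈ ball (0 : E) 1, z ≠ 0 → 0 < (h z 0 * conj (z 0) + h z 1 * conj (z 1)).re}

/-- The Taylor coefficient of `z_j ^ k` in the component `h_i`. -/
noncomputable def coef (i j : Fin 2) (k : ℕ) (h : E → E) : ℂ :=
  iteratedDeriv k (fun t : ℂ => h (EuclideanSpace.single j t) i) 0 / k.factorial

/-- The root in `(0, 1)` of `(α - β)(k - 1) s² + (α + kβ) s - β`. -/
noncomputable def root (α β : ℝ) (k : ℕ) : ℝ :=
  2 * β / ((α + k * β) + √((α + k * β) ^ 2 + 4 * (α - β) * β * (k - 1)))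

/-- The sharp constant `(α s + β (1 - s)) / (s^(1/2) (1 - s)^(k/2))` at `s = root α β k`. -/
noncomputable def bound (α β : ℝ) (k : ℕ) : ℝ :=
  (α * root α β k + β * (1 - root α β k)) / (√(root α β k) * √(1 - root α β k) ^ k)

lemma root_spec {α β : ℝ} {k : ℕ} (hα : 0 < α) (hβ : 0 < β) (hk : 2 ≤ k) :
    0 < root α β k ∧ root α β k < 1 ∧
      (α - β) * (k - 1) * root α β k ^ 2 + (α + k * β) * root α β k - β = 0 := by
  have hk' : (2 : ℝ) ≤ k := by exact_mod_cast hk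
  have hb : 0 < α + k * β := by positivity
  have hD : 0 ≤ (α + k * β) ^ 2 + 4 * (α - β) * β * (k - 1) := by
    have : (α + k * β) ^ 2 + 4 * (α - β) * β * (k - 1)
        = α ^ 2 + 2 * k * (α * β) + 4 * (α * β) * (k - 1) + β ^ 2 * (k - 2) ^ 2 := by ring
    rw [this]
    have : 0 ≤ (k : ℝ) - 1 := by linarith
    positivity
  set r := √((α + k * β) ^ 2 + 4 * (α - β) * β * (k - 1)) with hr
  have hr0 : 0 ≤ r := Real.sqrt_nonneg _
  have hr2 : r ^ 2 = (α + k * β) ^ 2 + 4 * (α - β) * β * (k - 1) := Real.sq_sqrt hD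
  have hq : 0 < α + k * β + r := by positivity
  have e : root α β k = 2 * β / (α + k * β + r) := rfl
  rw [e]
  refine ⟨by positivity, ?_, ?_⟩
  · rw [div_lt_one hq]; nlinarith
  · field_simp
    linear_combination (-β) * hr2

lemma inner_eq (z v : E) : ⟪z, v⟫_ℂ = v 0 * conj (z 0) + v 1 * conj (z 1) := by
  simp [PiLp.inner_apply]

lemma coef_eq {h : E → E} (ha : AnalyticOnNhd ℂ h (ball 0 1)) (i j : Fin 2) (k : ℕ) :
    coef i j k h = ⟪EuclideanSpace.single i (1 : ℂ), iteratedFDeriv ℂ k h 0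
      (fun _ => EuclideanSpace.single j (1 : ℂ))⟫_ℂ / k.factorial := by
  rw [← line_deriv ha, coef]
  congr 2
  funext t
  have : t • (EuclideanSpace.single j (1 : ℂ) : E) = EuclideanSpace.single j t := by
    ext l; simp [Pi.single_apply]
  rw [this, EuclideanSpace.inner_single_left]
  simp

/-- The diagonal map. -/
noncomputable def diag (lam : ℝ) : E →L[ℂ] E :=
  ContinuousLinearMap.id ℂ E + (((lam : ℂ) - 1) • EuclideanSpace.proj (0 : Fin 2)).smulRight
    (EuclideanSpace.single 0 1)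

lemma diag_apply (lam : ℝ) (v : E) : diag lam v 0 = lam * v 0 ∧ diag lam v 1 = v 1 := by
  constructor
  · simp [diag]; ring
  · simp [diag]

lemma main {lam : ℝ} (hl : 0 < lam) {k : ℕ} (hk : 2 ≤ k) {i j : Fin 2} {α β : ℝ}
    (hc : (i = 0 ∧ j = 1 ∧ α = lam ∧ β = 1) ∨ (i = 1 ∧ j = 0 ∧ α = 1 ∧ β = lam)) :
    IsGreatest ((fun h => ‖coef i j k h‖) '' NA lam) (bound α β k) := by
  have hα : 0 < α := by rcases hc with h | h <;> simp [h.2.2.1, hl]
  have hβ : 0 < β := by rcases hc with h | h <;> simp [h.2.2.2, hl]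
  obtain ⟨r0, r1, rp⟩ := root_spec hα hβ hk
  have hb : bound α β k = quo α β k (root α β k) := rfl
  set e : E := EuclideanSpace.single j 1 with he
  set w : E := EuclideanSpace.single i 1 with hw
  have he1 : ‖e‖ = 1 := by simp [he]
  have hw1 : ‖w‖ = 1 := by simp [hw]
  have hb0 : 0 ≤ bound α β k := by
    have : 0 < 1 - root α β k := by linarith
    unfold bound; positivity
  constructor
  · refine ⟨shear (diag lam) e w (bound α β k) k, ⟨shear_an _ _ _ _ _ _,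
      by simp [shear, show k ≠ 0 by omega], ?_, ?_⟩, ?_⟩
    · rw [shear_fderiv _ _ _ _ hk]; exact diag_apply lam
    · intro z hz hz0
      rw [← inner_eq]
      refine lt_of_lt_of_le ?_ (shear_re _ e w hb0 k z)
      have e1 : (⟪z, diag lam z⟫_ℂ).re = lam * ‖z 0‖ ^ 2 + ‖z 1‖ ^ 2 := by
        rw [inner_eq, (diag_apply lam z).1, (diag_apply lam z).2, mul_assoc, mul_conj', mul_conj']
        simp [← ofReal_pow]
      have e2 : ‖⟪w, z⟫_ℂ‖ = ‖z i‖ := by simp [hw, EuclideanSpace.inner_single_left]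
      have e3 : ‖⟪e, z⟫_ℂ‖ = ‖z j‖ := by simp [he, EuclideanSpace.inner_single_left]
      have e4 : ‖z i‖ ^ 2 + ‖z j‖ ^ 2 = ‖z‖ ^ 2 := by
        rw [EuclideanSpace.norm_sq_eq, Fin.sum_univ_two]
        rcases hc with h | h <;> simp [h.1, h.2.1, add_comm]
      have e5 : lam * ‖z 0‖ ^ 2 + ‖z 1‖ ^ 2 = α * ‖z i‖ ^ 2 + β * ‖z j‖ ^ 2 := by
        rcases hc with h | h <;> simp [h.1, h.2.1, h.2.2.1, h.2.2.2, add_comm]
      have hz1 : ‖z‖ < 1 := by simpa using hz
      have hz2 : 0 < ‖z‖ := norm_pos_iff.2 hz0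
      rw [e1, e2, e3, e5]
      have := quo_strict (a := bound α β k) hα hβ hk (fun s h0 h1 => quo_min hα hβ
        (by omega) r0 r1 rp h0 h1) (norm_nonneg (z i)) (norm_nonneg (z j))
        (by rw [e4]; positivity) (by rw [e4]; nlinarith)
      linarith
    · simp only
      rw [coef_eq (shear_an _ _ _ _ _ _), shear_coef _ he1 hw1 _ hk, norm_real,
        Real.norm_of_nonneg hb0]
  · rintro _ ⟨h, ⟨ha, h0, hd, hpos⟩, rfl⟩
    have hpos' : ∀ z ∈ ball (0 : E) 1, 0 ≤ (⟪z, h z⟫_ℂ).re := by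
      intro z hz
      by_cases h : z = 0
      · simp [h]
      · rw [inner_eq]; exact (hpos z hz h).le
    simp only
    rw [hb, coef_eq ha]
    refine le_quo r0 r1 (coef_le ha h0 hpos' he1 hw1 ?_ ?_ hk)
    · rw [inner_eq, (hd w).1, (hd w).2]
      rcases hc with h | h <;> simp [hw, h.1, h.2.2.1]
    · rw [inner_eq, (hd e).1, (hd e).2]
      rcases hc with h | h <;> simp [he, h.2.1, h.2.2.2]

lemma bound_one {k : ℕ} (hk : 2 ≤ k) :
    bound 1 1 k = √(((k : ℝ) + 1) ^ (k + 1) / (k : ℝ) ^ k) := by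
  have hm0 : (0 : ℝ) < k := by exact_mod_cast (by omega : 0 < k)
  have hr : root 1 1 k = 1 / (k + 1) := by
    rw [root, sub_self, mul_zero, zero_mul, zero_mul, add_zero, Real.sqrt_sq (by positivity)]
    field_simp; ring
  have e : 1 - 1 / ((k : ℝ) + 1) = k / (k + 1) := by field_simp; ring
  symm
  rw [bound, hr, e, Real.sqrt_eq_iff_mul_self_eq (by positivity) (by positivity), ← sq,
    div_pow, mul_pow, ← pow_mul, mul_comm k 2, pow_mul, Real.sq_sqrt (by positivity),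
    Real.sq_sqrt (by positivity), div_pow, pow_succ ((k : ℝ) + 1) k]
  field_simp
  ring

theorem result (lam : ℝ) (hl : 0 < lam) (k : ℕ) (hk : 2 ≤ k) :
    IsGreatest ((fun h => ‖coef 0 1 k h‖) '' NA lam) (bound lam 1 k) ∧
    IsGreatest ((fun h => ‖coef 1 0 k h‖) '' NA lam) (bound 1 lam k) ∧
    bound 1 1 k = √(((k : ℝ) + 1) ^ (k + 1) / (k : ℝ) ^ k) :=
  ⟨main hl hk (Or.inl ⟨rfl, rfl, rfl, rfl⟩), main hl hk (Or.inr ⟨rfl, rfl, rfl, rfl⟩),
    bound_one hk⟩

end Pool.Agent.Results.MP_eccde5_an.Sharp
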